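import Pool.Agent.H749.GX.Ue

/-!
# The uniform doomsday conjecture holds on every line in almost all internal degrees

`Cocycle r` are the cocycles of degree `r` of the cobar complex of the mod 2 dual Steenrod algebra,
`z.cls` is the class of `z` in the Adams `r`-line, `IsHom t z.val` says that `z` has the internal degree
`t`, `fam r j z.cls = (Sq⁰)^j z` is the `j`-th member of the `Sq⁰`-family of the class of `z`,
`z.Sq k` represents `Sq^k z` (the cup-`(r-k)` square), and `hmul i` is the multiplication by `h_i`.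

`Diffs` (file `Q171/ND3/Df.lean` of the library) are maps `d₂`, `d₃` with properties of the differentials
of the Adams spectral sequence of the sphere. In (1) only Bruner's formula `d₂ (Sq⁰ x) = h₀ Sq¹ x` for
classes of even internal degree is used; in (2) also Bruner's formula
`d₃ (Sq⁰ Sq¹ x) = h₁ Sq² Sq¹ x` modulo the image of `d₂`, `d₂ d₂ = 0` and `d₂ (h₀ y) = h₀ d₂ y`.

Every `Sq⁰`-family on the line `r` has its late members in degrees `t` with `2 ^ (2r+3) ∣ t`, and there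
`Sq⁰` is bijective, so each class `z ≠ 0` in such a degree starts a non-trivial family.

**Theorem.** Let `r ≥ 1`.

1. Among the degrees `t < 2 ^ N` with `2 ^ (2r+3) ∣ t` and `Ext^{r,t} ≠ 0` the proportion of those in
   which some family `a_j = (Sq⁰)^j z`, `z ≠ 0` in `Ext^{r,t}`, does *not* satisfy
   `d₂ (a_{j+1}) = h₀ b_j ≠ 0` for all `j ≥ 2`, where `b_j = (Sq⁰)^j Sq¹ z`, is at most `C / N`.
2. If `r ≥ 4` there are `C` and `J` such that, among the same degrees, the proportion of those in which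
   some family `a_j = (Sq⁰)^j z`, `z ≠ 0`, satisfies *neither* `d₂ (a_{j+1}) = h₀ b_j ≠ 0` for all
   `j ≥ J`, where `b_j = (Sq⁰)^j Sq¹ z`, *nor* `d₂ (a_{j+1}) = 0` and `d₃ (a_{j+1}) = h₁ b_j ≠ 0`
   modulo the image of `d₂` for all `j ≥ J`, where `b_j = (Sq⁰)^j Sq² z`, is at most `C / N²`
   (`Doom 𝒟 r J z`).

So on every line the uniform doomsday conjecture is true in almost all degrees, for all families there,
and with the simplest differential. The degrees which are generic for (1) are those of the products of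
`r` classes `h_k`; in (2) also the degrees of codimension one are treated, and there `d₂` is not
injective: one needs `d₃`.
-/

set_option autoImplicit false

namespace Pool.Agent.Results.MP_3c8579_gt.AlmostAllDegrees

open Pool.Agent.Q171.ND3.St (Cocycle IsHom Diffs fam hmul)
open Pool.Agent.H749.GX (Doom)

/-- `d₂ (a_{j+1}) = h₀ b_j ≠ 0`, or `d₃ (a_{j+1}) = h₁ b_j ≠ 0`, for all families in almost all
degrees. -/
theorem result (r : ℕ) (hr : 1 ≤ r) :
    (∃ C : ℕ, ∀ N : ℕ,
      N * {t : ℕ | t < 2 ^ N ∧ 2 ^ (2 * r + 3) ∣ t ∧ ∃ (𝒟 : Diffs) (z : Cocycle r),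
        IsHom t z.val ∧ z.cls ≠ 0 ∧ ¬ ∀ j, 2 ≤ j →
          𝒟.d₂ r (fam r (j + 1) z.cls) = hmul 0 (r + 1) (fam (r + 1) j (z.Sq 1).cls) ∧
          hmul 0 (r + 1) (fam (r + 1) j (z.Sq 1).cls) ≠ 0}.ncard
        ≤ C * {t : ℕ | t < 2 ^ N ∧ 2 ^ (2 * r + 3) ∣ t ∧ ∃ z : Cocycle r, IsHom t z.val ∧
          z.cls ≠ 0}.ncard) ∧
    (4 ≤ r → ∃ C J : ℕ, ∀ N : ℕ,
      N ^ 2 * {t : ℕ | t < 2 ^ N ∧ 2 ^ (2 * r + 3) ∣ t ∧ ∃ (𝒟 : Diffs) (z : Cocycle r),
        IsHom t z.val ∧ z.cls ≠ 0 ∧ ¬ Doom 𝒟 r J z}.ncard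
        ≤ C * {t : ℕ | t < 2 ^ N ∧ 2 ^ (2 * r + 3) ∣ t ∧ ∃ z : Cocycle r, IsHom t z.val ∧
          z.cls ≠ 0}.ncard) :=
  ⟨Pool.Agent.H749.GX.uniformA r hr, Pool.Agent.H749.GX.uniform2 r⟩

end Pool.Agent.Results.MP_3c8579_gt.AlmostAllDegrees
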