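import Pool.Agent.H749.GS.Uni

/-!
# The uniform doomsday conjecture in sparse internal degrees

`Ext s` is the Adams `s`-line: the cohomology of the cobar complex of the mod 2 dual Steenrod algebra;
`IsDeg s t y` says that `y` lies in `Ext^{s,t}`, `fam s j y` is the `j`-th member `y_j = (Sq⁰)^j y` of
the `Sq⁰`-family of `y`, `a.cls` is the class of a cocycle `a`, `a.Sq k` is `Sq^k` (the cup-`(s-k)`
square), and `hmul i` is the multiplication by `h_i`. `Diffs` (file `Q171/ND3/Df.lean` of the library)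
are maps `d₂`, `d₃` with properties of the differentials of the Adams spectral sequence of the sphere:
`d₂` is additive, has the right bidegree, `d₂ d₂ = 0`, `d₂` commutes with `h₀`, and Bruner's formulas
`d₂ (Sq⁰ x) = h₀ Sq¹ x` and `d₃ (Sq⁰ Sq¹ x) = h₁ Sq² Sq¹ x` (modulo the image of `d₂`) hold for
classes `x` of even internal degree; `d₃` takes values in representatives modulo the image of `d₂`.

**Theorem.** For every line there is a number `L` with the following property. Let `{a_j}` be a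
non-trivial `Sq⁰`-family on the line `s ≥ 1` in the degrees `2^j (c + 2^{l_1} + … + 2^{l_m})`, where
`2 ^ L c ≤ 2 ^ {l_1}`, `l_i + L ≤ l_{i+1}`, and let `b` be a number with `Ext^{i,2^j c} = 0` for
`i < b` and `j ≥ L`. If `s ≤ b + m` and `m ≥ 1`, or `s ≤ b + m + 1` and `m ≥ 3`, or `s ≤ b + m + 2` and
`m ≥ 5`, then the uniform doomsday conjecture holds for `{a_j}`, with `k = 1`: either

* `d₂ (a_{j+1}) = h₀ b_j ≠ 0` for all `j ≥ L`, where `b_j = Sq¹ a_j`, or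
* `d₂ (a_{j+1}) = 0` and `d₃ (a_{j+1}) = h₁ b_j ≠ 0` in `E₃` for all `j ≥ L`, where `b_j = Sq² a_j`.

For example, with `c = 0`, `b = 0` this concerns all families in the degrees `2^j (2^{l_1} + … + 2^{l_m})`
with large gaps on the lines `s ≤ m + 2` (the groups with `s < m` vanish).
-/

set_option autoImplicit false

namespace Pool.Agent.Results.MP_3c8579_gt.SparseDegrees

open Pool.Agent.Q171.ND3.St Finset

/-- Non-trivial `Sq⁰`-families `{a_j}` on the line `s + 1` in sparse degrees: either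
`d₂ (a_{j+1}) = h₀ Sq¹ a_j ≠ 0` for all `j ≥ L`, or `d₂ (a_{j+1}) = 0` and
`d₃ (a_{j+1}) = h₁ Sq² a_j ≠ 0` modulo the image of `d₂` for all `j ≥ L`. -/
theorem result (s : ℕ) : ∃ L : ℕ, ∀ (c b m : ℕ) (l : ℕ → ℕ),
    (∀ j, L ≤ j → ∀ i < b, ∀ y : Ext i, IsDeg i (2 ^ j * c) y → y = 0) →
    2 ^ L * c ≤ 2 ^ l 0 → (∀ i, l i + L ≤ l (i + 1)) →
    ((1 ≤ m ∧ s + 1 ≤ b + m) ∨ (3 ≤ m ∧ s + 1 ≤ b + m + 1) ∨ (5 ≤ m ∧ s + 1 ≤ b + m + 2)) →
    ∀ (D : Diffs) (a : Cocycle (s + 1)), IsHom (c + ∑ i ∈ range m, 2 ^ l i) a.val →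
    (∀ j, fam (s + 1) j a.cls ≠ 0) →
    (∀ j, L ≤ j → D.d₂ (s + 1) (fam (s + 1) (j + 1) a.cls)
        = hmul 0 (s + 2) (fam (s + 2) j (a.Sq 1).cls) ∧
      hmul 0 (s + 2) (fam (s + 2) j (a.Sq 1).cls) ≠ 0) ∨
    (∀ j, L ≤ j → D.d₂ (s + 1) (fam (s + 1) (j + 1) a.cls) = 0 ∧
      (∃ w, D.d₃ (s + 1) (fam (s + 1) (j + 1) a.cls)
        = hmul 1 (s + 3) (fam (s + 3) j (a.Sq 2).cls) + D.d₂ (s + 2) w) ∧
      ¬ ∃ w, D.d₃ (s + 1) (fam (s + 1) (j + 1) a.cls) = D.d₂ (s + 2) w) :=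
  Pool.Agent.H749.GS.uniform s

end Pool.Agent.Results.MP_3c8579_gt.SparseDegrees
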